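import Mathlib

set_option autoImplicit false

namespace Pool.Agent.Results.MP_aceab8_an.EvenBounces

open scoped RealInnerProductSpace
open Matrix

abbrev E := EuclideanSpace ℝ (Fin 3)

/-- The vertices of the regular tetrahedron `T = {x | ∀ i, -1 ≤ ⟪vert i, x⟫}`. -/
noncomputable def vert : Fin 4 → E := ![!₂[1, 1, 1], !₂[1, -1, -1], !₂[-1, 1, -1], !₂[-1, -1, 1]]

/-- The unit normal of the face opposite to `vert i`. -/
noncomputable def unitNormal (i : Fin 4) : E := (√3)⁻¹ • vert i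

/-- `x` lies in the interior of `T`. -/
def InInterior (x : E) : Prop := ∀ i, -1 < ⟪vert i, x⟫

/-- `x` lies in the relative interior of the face opposite to `vert i`. -/
def InFace (i : Fin 4) (x : E) : Prop := ⟪vert i, x⟫ = -1 ∧ ∀ j, j ≠ i → -1 < ⟪vert j, x⟫

/-- A billiard trajectory: bounce points `x k` on faces `f k`, unit velocity `v k` and flight
time `t k` from bounce `k` to bounce `k + 1`. -/
def IsTrajectory (x v : ℕ → E) (f : ℕ → Fin 4) (t : ℕ → ℝ) : Prop :=
  ∀ k, InFace (f k) (x k) ∧ ‖v k‖ = 1 ∧ 0 < t k ∧ x (k + 1) = x k + t k • v k ∧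
    (∀ s, 0 < s → s < t k → InInterior (x k + s • v k)) ∧
    v (k + 1) = v k - (2 * ⟪v k, unitNormal (f (k + 1))⟫) • unitNormal (f (k + 1))

def p : Fin 4 → Fin 3 → ℤ := ![![1, 1, 1], ![1, -1, -1], ![-1, 1, -1], ![-1, -1, 1]]

def S (i : Fin 4) : Matrix (Fin 3) (Fin 3) ℤ := 
  Matrix.of fun a b => (if a = b then 3 else 0) - 2 * (p i a * p i b)

def M (f : ℕ → Fin 4) : ℕ → Matrix (Fin 3) (Fin 3) ℤ
  | 0 => 1
  | k + 1 => S (f (k + 1)) * M f k

lemma S_orth : ∀ i, S i * (S i)ᵀ = (9 : ℤ) • 1 := by decide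
lemma S_det : ∀ i, (S i).det = -27 := by
  intro i; rw [det_fin_three]; revert i; decide

def V (i j : Fin 4) : Matrix (Fin 3) (Fin 3) (ZMod 3) :=
  (vecMulVec (p i) (p j)).map (Int.castRingHom (ZMod 3))

lemma S_mod : ∀ i, (S i).map (Int.castRingHom (ZMod 3)) = V i i := by decide
lemma V_mul : ∀ i j l, i ≠ j → V i i * V j l = -V i l := by decide
lemma V_tr : ∀ i j, i ≠ j → (V i j).trace = -1 := by decide

lemma M_orth (f : ℕ → Fin 4) (k : ℕ) : M f k * (M f k)ᵀ = (9 : ℤ) ^ k • 1 := by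
  induction k with
  | zero => simp [M]
  | succ k ih =>
    rw [M, transpose_mul, Matrix.mul_assoc, ← Matrix.mul_assoc (M f k), ih, smul_mul_assoc,
      Matrix.one_mul, mul_smul_comm, S_orth, smul_smul, pow_succ]

lemma M_det (f : ℕ → Fin 4) (k : ℕ) : (M f k).det = (-27) ^ k := by
  induction k with
  | zero => simp [M]
  | succ k ih => rw [M, det_mul, ih, S_det, pow_succ']

lemma M_mod (f : ℕ → Fin 4) (hf : ∀ k, f (k + 1) ≠ f k) (k : ℕ) :
    (M f (k + 1)).map (Int.castRingHom (ZMod 3)) = (-1 : ZMod 3) ^ k • V (f (k + 1)) (f 1) := by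
  induction k with
  | zero => simp only [M, Matrix.mul_one, S_mod, pow_zero, one_smul, zero_add]
  | succ k ih =>
    rw [M, Matrix.map_mul, ih, S_mod, mul_smul_comm, V_mul _ _ _ (hf _), pow_succ, mul_smul]
    simp

lemma refl_eq (i : Fin 4) (w : E) :
    (S i).map (Int.castRingHom ℝ) *ᵥ w.ofLp =
      (3 : ℝ) • (w - (2 * ⟪w, unitNormal i⟫) • unitNormal i).ofLp := by
  have h : (√3)⁻¹ * (√3)⁻¹ = (1 / 3 : ℝ) := by
    rw [← mul_inv, Real.mul_self_sqrt (by norm_num)]; norm_num
  have e : (2 * ⟪w, unitNormal i⟫) • unitNormal i = (2 / 3 * ⟪w, vert i⟫) • vert i := by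
    rw [unitNormal, real_inner_smul_right, smul_smul]
    congr 1
    linear_combination 2 * ⟪w, vert i⟫ * h
  rw [e]
  ext a
  fin_cases i <;> fin_cases a <;>
    simp [S, p, vert, mulVec, dotProduct, Fin.sum_univ_three, PiLp.inner_apply, vecHead, vecTail] <;>
    ring

lemma det_id (R : Matrix (Fin 3) (Fin 3) ℤ) (c : ℤ) :
    (R - c • 1).det = R.det - c * R.adjugate.trace + c ^ 2 * R.trace - c ^ 3 := by
  simp only [det_fin_three, Matrix.sub_apply, Matrix.smul_apply, Matrix.one_apply, smul_eq_mul]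
  simp [adjugate_fin_three, trace_fin_three]
  ring

theorem result (x v : ℕ → E) (f : ℕ → Fin 4) (t : ℕ → ℝ) (h : IsTrajectory x v f t)
    (n : ℕ) (hx : x n = x 0) (hv : v n = v 0) : Even n := by
  have hf : ∀ k, f (k + 1) ≠ f k := by
    intro k hk
    obtain ⟨h1, -, h3, h4, h5, -⟩ := h k
    have h6 := (h (k + 1)).1.1
    have h7 := h5 (t k / 2) (by linarith) (by linarith) (f k)
    rw [hk, h4, inner_add_right, real_inner_smul_right] at h6
    rw [inner_add_right, real_inner_smul_right] at h7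
    linarith [h1.1]
  have hfn : f n = f 0 := by
    by_contra hne
    have h1 := (h n).1.1
    have h2 := (h 0).1.2 _ hne
    rw [hx] at h1
    linarith
  have hM : ∀ k, (M f k).map (Int.castRingHom ℝ) *ᵥ (v 0).ofLp = (3 : ℝ) ^ k • (v k).ofLp := by
    intro k
    induction k with
    | zero => simp [M]
    | succ k ih =>
      rw [M, Matrix.map_mul, ← mulVec_mulVec, ih, mulVec_smul, refl_eq, ← (h k).2.2.2.2.2,
        smul_smul, pow_succ]
  by_contra hodd
  rw [Nat.not_even_iff_odd] at hodd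
  have hdet : (M f n - (3 : ℤ) ^ n • 1).det = 0 := by
    have h0 : (v 0).ofLp ≠ 0 := fun h0 => by
      have h1 := (h 0).2.1
      rw [show v 0 = 0 from PiLp.ext (congrFun h0)] at h1
      simp at h1
    have h1 : ((M f n - (3 : ℤ) ^ n • 1).map (Int.castRingHom ℝ)).det = 0 := by
      refine exists_mulVec_eq_zero_iff.mp ⟨_, h0, ?_⟩
      have : (M f n - (3 : ℤ) ^ n • 1).map (Int.castRingHom ℝ) =
          (M f n).map (Int.castRingHom ℝ) - (3 : ℝ) ^ n • 1 := by
        ext a b
        simp only [Matrix.map_apply, Matrix.sub_apply, Matrix.smul_apply, Matrix.one_apply,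
          smul_eq_mul]
        by_cases hab : a = b <;> simp [hab]
      rw [this, sub_mulVec, hM, hv, smul_mulVec, one_mulVec, sub_self]
    rw [← RingHom.mapMatrix_apply, ← RingHom.map_det] at h1
    exact Int.cast_injective (α := ℝ) (by simpa using h1)
  have hadj : (9 : ℤ) ^ n • (M f n).adjugate = (-27 : ℤ) ^ n • (M f n)ᵀ := by
    have := congrArg (fun A => (M f n).adjugate * A) (M_orth f n)
    simp only [← Matrix.mul_assoc, adjugate_mul, M_det, mul_smul_comm, smul_mul_assoc,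
      Matrix.mul_one, Matrix.one_mul] at this
    exact this.symm
  have htr := congrArg trace hadj
  rw [trace_smul, trace_smul, trace_transpose, smul_eq_mul, smul_eq_mul] at htr
  rw [det_id, M_det] at hdet
  have e27 : (-27 : ℤ) ^ n = -(3 ^ n) ^ 3 := by
    rw [hodd.neg_pow, ← pow_mul, mul_comm, pow_mul]; norm_num
  have e9 : (9 : ℤ) ^ n = (3 ^ n) ^ 2 := by rw [← pow_mul, mul_comm, pow_mul]; norm_num
  rw [e27] at hdet htr
  rw [e9] at htr
  have hc : (3 : ℤ) ^ n ≠ 0 := by positivity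
  have ht : (M f n).trace = 3 ^ n := by
    generalize (3 : ℤ) ^ n = c at *
    have : 2 * c ^ 3 * ((M f n).trace - c) = 0 := by linear_combination c * hdet + htr
    simpa [hc, sub_eq_zero] using this
  obtain ⟨k, rfl⟩ : ∃ k, n = k + 1 := ⟨n - 1, by have := hodd.pos; omega⟩
  have h1 := congrArg trace (M_mod f hf k)
  rw [trace_smul, V_tr _ _ (by rw [hfn]; exact (hf 0).symm), ← AddMonoidHom.map_trace, ht] at h1
  have h3 : (3 : ZMod 3) = 0 := rfl
  rcases neg_one_pow_eq_or (ZMod 3) k with h2 | h2 <;> simp [h2, h3] at h1 <;>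
    exact absurd h1 (by decide)

end Pool.Agent.Results.MP_aceab8_an.EvenBounces
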